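import Pool.Agent.H92.Mu.Key
import Pool.Agent.X310.MuCx

set_option autoImplicit false
set_option linter.unusedSectionVars false
set_option linter.style.haveILetI false

/-!
# The number of elements of order dividing `p`: trace domination
-/

namespace Pool.Agent.H92.Mu

open Pool.Agent.X310.Mu

section tor
variable (p : ℕ)

/-- The number of the `x` with `x ^ p = 1`. -/
noncomputable def tor (A : Type) [CommGroup A] : ℕ := Nat.card {x : A // x ^ p = 1}

theorem tor_eq_index (A : Type) [CommGroup A] [Finite A] :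
    tor p A = (powMonoidHom p : A →* A).range.index := by
  have h1 := Subgroup.card_mul_index (powMonoidHom p : A →* A).ker
  have h2 := Subgroup.card_mul_index (powMonoidHom p : A →* A).range
  rw [Subgroup.index_ker] at h1
  have h3 : tor p A = Nat.card (powMonoidHom p : A →* A).ker := rfl
  rw [h3]
  have hpos : 0 < Nat.card (powMonoidHom p : A →* A).range := Nat.card_pos
  apply Nat.eq_of_mul_eq_mul_left hpos
  rw [h2, ← h1, mul_comm]

theorem tor_surj {B C : Type} [CommGroup B] [CommGroup C] [Finite B] [Finite C] (φ : B →* C)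
    (hφ : Function.Surjective φ) : tor p C ≤ tor p B := by
  rw [tor_eq_index, tor_eq_index, ← Subgroup.index_comap_of_surjective _ hφ]
  refine Nat.le_of_dvd (Nat.pos_of_ne_zero Subgroup.index_ne_zero_of_finite) (Subgroup.index_dvd_of_le ?_)
  rintro _ ⟨b, rfl⟩
  refine ⟨φ b, ?_⟩
  change φ b ^ p = φ (b ^ p)
  rw [map_pow]

theorem tor_pi {J : Type} [Fintype J] (R : J → Type) [∀ j, CommGroup (R j)] :
    tor p ((j : J) → R j) = ∏ j, tor p (R j) := by
  unfold tor
  rw [← Nat.card_pi]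
  refine Nat.card_congr ?_
  exact
    { toFun := fun g j => ⟨g.1 j, congrFun g.2 j⟩
      invFun := fun f => ⟨fun j => (f j).1, funext fun j => (f j).2⟩
      left_inv := fun g => rfl
      right_inv := fun f => rfl }

variable {p}

/-- `y` is in a subgroup if a power of exponent prime to the order is. -/
theorem mem_of_pow {M : Type} [CommGroup M] (hp : p.Prime) (S : Subgroup M) {y : M} (hy : y ^ p = 1) {n : ℕ}
    (hn : ¬ p ∣ n) (h : y ^ n ∈ S) : y ∈ S := by
  have hcop : IsCoprime (n : ℤ) (p : ℤ) := by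
    rw [Nat.isCoprime_iff_coprime]
    exact ((Nat.Prime.coprime_iff_not_dvd hp).2 hn).symm
  obtain ⟨u, v, huv⟩ := hcop
  have h3 : y = (y ^ n) ^ u := by
    calc y = y ^ (u * n + v * p : ℤ) := by rw [huv, zpow_one]
      _ = (y ^ n) ^ u := by
        rw [zpow_add, mul_comm u, mul_comm v, zpow_mul, zpow_mul, zpow_natCast, zpow_natCast, hy, one_zpow,
          mul_one]
  rw [h3]
  exact zpow_mem h u

theorem tor_dom (hp : p.Prime) {A M B : Type} [CommGroup A] [CommGroup M] [CommGroup B] [Finite M] [Finite B]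
    (f : A →* M) (ψ : B →* M) (hf : ∀ x, x ^ p = 1 → f x = 1 → x = 1)
    (h : ∀ x, ∃ n, ¬ p ∣ n ∧ f x ^ n ∈ ψ.range) : tor p A ≤ tor p B := by
  refine le_trans ?_ (tor_surj p ψ.rangeRestrict ψ.rangeRestrict_surjective)
  have hm : ∀ x : {x : A // x ^ p = 1}, f x.1 ∈ ψ.range := fun x => by
    obtain ⟨n, hn, hx⟩ := h x.1
    exact mem_of_pow hp _ (by rw [← map_pow, x.2, map_one]) hn hx
  let g : {x : A // x ^ p = 1} → {y : ψ.range // y ^ p = 1} := fun x =>
    ⟨⟨f x.1, hm x⟩, Subtype.ext (by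
      change f x.1 ^ p = 1
      rw [← map_pow, x.2, map_one])⟩
  refine Nat.card_le_card_of_injective g ?_
  rintro ⟨x, hx⟩ ⟨y, hy⟩ hxy
  apply Subtype.ext
  change x = y
  have h1 : f x = f y := congrArg (fun z => z.1.1) hxy
  rw [← mul_inv_eq_one]
  apply hf
  · rw [mul_pow, inv_pow, hx, hy, inv_one, one_mul]
  · rw [map_mul, map_inv, h1, mul_inv_cancel]

end tor

/-- After `dom_inf` of the starting file `Pool.Agent.X310.MuInf`; the subgroups `D i` are arbitrary, `M` is finite. -/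
theorem dom_fin {p : ℕ} (hp : p.Prime) {G Γ P M A : Type} [Group G] [Finite G] [Group Γ] [Fintype Γ]
    [Group P] [CommGroup M] [Finite M] [CommGroup A]
    (a : G →* MulAut M) (π : G →* Γ) (ρ : G →* P)
    (hπ : Function.Surjective π) (hinj : ∀ g, π g = 1 → ρ g = 1 → g = 1) (hP : ∀ x : P, ∃ k, x ^ p ^ k = 1)
    {ι : Type} [Fintype ι] (H : Subgroup Γ) (D : ι → Subgroup Γ) (hH : ¬ p ∣ Nat.card H)
    (hdom : TraceDominates p H D)
    (R : ι → Type) [∀ i, CommGroup (R i)] (r : ∀ i, R i →* M)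
    (hR : ∀ i x, nm a (hat π ρ (D i)) x ∈ (r i).range)
    (f : A →* M) (hf : ∀ g ∈ hat π ρ H, ∀ x, a g (f x) = f x) :
    ∃ ψ : ((j : ι × Γ) → R j.1) →* M, ∀ x : A, ∃ n, ¬ p ∣ n ∧ f x ^ n ∈ ψ.range := by
  classical
  let W : Subgroup M := Subgroup.closure {c | ∃ g i x, c = a g (nm a (hat π ρ (D i)) x)}
  have hWst : ∀ g, ∀ w ∈ W, a g w ∈ W := by
    intro g w hw
    refine Subgroup.closure_induction (p := fun w _ => a g w ∈ W) ?_ ?_ ?_ ?_ hw
    · rintro _ ⟨g', i, x, rfl⟩
      apply Subgroup.subset_closure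
      refine ⟨g * g', i, x, ?_⟩
      rw [map_mul, MulAut.mul_apply]
    · rw [map_one]
      exact one_mem _
    · intro x y _ _ hx hy
      rw [map_mul]
      exact mul_mem hx hy
    · intro x _ hx
      rw [map_inv]
      exact inv_mem hx
  have hWN : ∀ i x, nm a (hat π ρ (D i)) x ∈ W := by
    intro i x
    apply Subgroup.subset_closure
    refine ⟨1, i, x, ?_⟩
    rw [map_one, MulAut.one_apply]
  choose s hs using hπ
  let B := ((j : ι × Γ) → R j.1)
  let ψ : B →* M :=
    { toFun := fun c => ∏ j, a (s j.2) (r j.1 (c j))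
      map_one' := Finset.prod_eq_one fun j _ => by
        change a (s j.2) (r j.1 1) = 1
        rw [map_one, map_one]
      map_mul' := fun c d => (Finset.prod_congr rfl fun j _ => by
        change a (s j.2) (r j.1 (c j * d j)) = _
        rw [map_mul, map_mul]).trans Finset.prod_mul_distrib }
  have hWψ : W ≤ ψ.range := by
    rw [Subgroup.closure_le]
    rintro _ ⟨g, i, x, rfl⟩
    have h1 : a g (nm a (hat π ρ (D i)) x) =
        a (s (π g)) (nm a (hat π ρ (D i)) (a ((s (π g))⁻¹ * g) x)) := by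
      rw [← nm_comm]
      · rw [← MulAut.mul_apply, ← map_mul, mul_inv_cancel_left]
      · intro σ hσ
        exact ker_comm _ _ hinj (by rw [map_mul, map_inv, hs, inv_mul_cancel]) hσ.2
    rw [h1]
    obtain ⟨c, hc⟩ := hR i (a ((s (π g))⁻¹ * g) x)
    rw [← hc]
    refine ⟨Pi.mulSingle (i, π g) c, ?_⟩
    change ∏ j, a (s j.2) (r j.1 ((Pi.mulSingle (i, π g) c : B) j)) = _
    rw [Finset.prod_eq_single (i, π g)]
    · rw [Pi.mulSingle_eq_same]
    · intro j _ hj
      rw [Pi.mulSingle_eq_of_ne hj, map_one, map_one]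
    · intro hj
      exact absurd (Finset.mem_univ _) hj
  refine ⟨ψ, fun x => ?_⟩
  obtain ⟨n, hn, hnW⟩ := key hp a π ρ (fun γ => ⟨s γ, hs γ⟩) hinj hP H D hH hdom W hWst hWN (f x)
  refine ⟨Nat.card (hat π ρ H) * n, ?_, ?_⟩
  · rw [hp.dvd_mul, not_or]
    exact ⟨card_hat _ _ hinj hp H hH, hn⟩
  · apply hWψ
    rw [pow_mul, ← nm_of_fix a (hat π ρ H)]
    · exact hnW
    · intro g hg
      exact hf g hg x

open NumberField Ideal Pool.Agent.H471R2 IntermediateField Pool.Agent.X27.Cln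

section field
variable {F L : Type} [Field F] [NumberField F] [Field L] [NumberField L] [Algebra F L]

/-- The classes of the primes above `p` are permuted. -/
theorem ca_Sp {p : ℕ} [Fact p.Prime] (σ : L ≃ₐ[ℚ] L) (c : ClassGroup (𝓞 L)) (hc : c ∈ Sp p L) : ca σ c ∈ Sp p L := by
  rw [mem_Sp_iff] at hc ⊢
  obtain ⟨n, J, h, ⟨I, hI⟩, rfl⟩ := hc
  have h0 : ia σ J ≠ ⊥ := by
    intro h1
    apply h
    have h2 := congrArg (ia σ⁻¹) h1
    rw [ia_ia, inv_mul_cancel] at h2
    rwa [ia_one, show ia σ⁻¹ (⊥ : Ideal (𝓞 L)) = ⊥ from Ideal.map_bot] at h2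
  refine ⟨n, ia σ J, h0, ⟨ia σ I, ?_⟩, ?_⟩
  · unfold ia
    rw [← Ideal.map_mul, ← hI, Ideal.map_pow, Ideal.map_span, Set.image_singleton, map_natCast]
  · rw [ca_cl]

end field

end Pool.Agent.H92.Mu
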