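import Pool.Agent.H92.Mu.Dom

set_option autoImplicit false
set_option linter.unusedSectionVars false
set_option linter.style.haveILetI false

/-!
# Trace domination for the class groups modulo the primes above `p`
-/

namespace Pool.Agent.H92.Mu

open Pool.Agent.X310.Mu
open NumberField Ideal Pool.Agent.H471R2 IntermediateField Pool.Agent.X27.Cln

theorem nm_qact {G M : Type} [Group G] [Finite G] [CommGroup M] (a : G →* MulAut M) (A : Subgroup M)
    (hA : ∀ g, ∀ w ∈ A, a g w ∈ A) (D : Subgroup G) (x : M) :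
    nm (qact a A hA) D (QuotientGroup.mk' A x) = QuotientGroup.mk' A (nm a D x) := by
  classical
  haveI : Fintype D := Fintype.ofFinite D
  rw [nm_eq, nm_eq, map_prod]
  rfl

section
variable (p : ℕ) [hp : Fact p.Prime] (F : Type) {L : Type} [Field F] [NumberField F] [Field L] [NumberField L]
  [Algebra F L]

/-- The action on the class group modulo the primes above `p`. -/
noncomputable def actq : stab F L →* MulAut (ClassGroup (𝓞 L) ⧸ Sp p L) :=
  qact (act F) (Sp p L) (fun g c hc => ca_Sp g.1 c hc)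

variable {p} {F}

theorem actq_mk (g : stab F L) (c : ClassGroup (𝓞 L)) :
    actq p F g (QuotientGroup.mk' (Sp p L) c) = QuotientGroup.mk' (Sp p L) (ca g.1 c) := rfl

theorem extq_mk (K : IntermediateField ℚ L) (c : ClassGroup (𝓞 K)) :
    extq (p := p) K (QuotientGroup.mk' (Sp p K) c) =
      QuotientGroup.mk' (Sp p L) (ClassGroup.extendedHom (𝓞 K) (𝓞 L) c) := rfl

theorem extq_inj (K : IntermediateField ℚ L) (hd : ¬ p ∣ Module.finrank K L) (t : ClassGroup (𝓞 K) ⧸ Sp p K)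
    (h2 : t ^ p = 1) (h3 : extq (p := p) K t = 1) : t = 1 := by
  obtain ⟨c, hc⟩ := QuotientGroup.mk'_surjective _ t
  have h4 : t ^ Module.finrank K L = 1 := by
    rw [← hc] at h3 ⊢
    rw [← map_pow, QuotientGroup.mk'_apply, QuotientGroup.eq_one_iff]
    apply norm_back (L := L)
    have h5 : ((ClassGroup.extendedHom (𝓞 K) (𝓞 L) c : ClassGroup (𝓞 L)) : ClassGroup (𝓞 L) ⧸ Sp p L) = 1 := h3
    rwa [QuotientGroup.eq_one_iff] at h5
  exact eq_one_of_cop hp.out hd h2 h4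

variable (E : IntermediateField ℚ L) [Normal ℚ E]

theorem rk_dom {ι : Type} [Fintype ι] (H : Subgroup (F ≃ₐ[ℚ] F)) (D : ι → Subgroup (F ≃ₐ[ℚ] F))
    (h : (emb F L).fieldRange ⊔ E = ⊤)
    (hlift : ∀ γ : F ≃ₐ[ℚ] F, ∃ g : L ≃ₐ[ℚ] L, ∀ x : F, g (algebraMap F L x) = algebraMap F L (γ x))
    (hE : ∀ x : E ≃ₐ[ℚ] E, ∃ k, x ^ p ^ k = 1) (hH : ¬ p ∣ Nat.card H)
    (hdom : TraceDominates p H D) :
    rk p (comp H E) ≤ (∏ i, rk p (comp (D i) E)) ^ Nat.card (F ≃ₐ[ℚ] F) := by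
  classical
  haveI : Fintype (F ≃ₐ[ℚ] F) := Fintype.ofFinite _
  have hπ : Function.Surjective (resF F L) := by
    intro γ
    obtain ⟨g, hg⟩ := hlift γ
    exact ⟨⟨g, γ, hg⟩, resF_eq _ γ hg⟩
  have hfix : ∀ D : Subgroup (F ≃ₐ[ℚ] F), Kf (comp D E).fixingSubgroup = comp D E := fun D =>
    fixed_comp D E h
  have hrk : ∀ D : Subgroup (F ≃ₐ[ℚ] F), rk p (comp D E) = rk p (Kf (comp D E).fixingSubgroup) := fun D =>
    rk_congr (equivOfEq (hfix D)).symm.toRingEquiv
  obtain ⟨ψ, hψ⟩ := dom_fin hp.out (actq p F) (resF F L) (resE F E) hπ (res_inj F E h) hE H D hH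
    hdom (fun i => ClassGroup (𝓞 (Kf (comp (D i) E).fixingSubgroup)) ⧸ Sp p (Kf (comp (D i) E).fixingSubgroup))
    (fun i => extq (Kf (comp (D i) E).fixingSubgroup)) (fun i x => by
      obtain ⟨c, rfl⟩ := QuotientGroup.mk'_surjective _ x
      change nm (qact (act F) (Sp p L) _) _ _ ∈ _
      rw [nm_qact]
      obtain ⟨d, hd⟩ := nm_mem_img F E (D i) c
      refine ⟨QuotientGroup.mk' _ d, ?_⟩
      rw [extq_mk]
      congr 1)
    (extq (Kf (comp H E).fixingSubgroup)) (by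
      intro g hg x
      obtain ⟨c, rfl⟩ := QuotientGroup.mk'_surjective _ x
      rw [extq_mk, actq_mk]
      congr 1
      apply ca_ext
      have h1 : g.1 ∈ (comp H E).fixingSubgroup := by
        rw [← hat_map F E H]
        exact ⟨g, hg, rfl⟩
      intro x hx
      have hx' : x ∈ comp H E := by
        rw [← hfix H]
        exact hx
      exact (IntermediateField.mem_fixingSubgroup_iff _ _).1 h1 x hx')
  have hd : ¬ p ∣ Module.finrank (Kf (comp H E).fixingSubgroup) L := by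
    have key : ∀ M N : IntermediateField ℚ L, M = N → Module.finrank M L = Module.finrank N L := by
      rintro M _ rfl; rfl
    rw [key _ _ (hfix H)]
    exact not_dvd_comp H E h hH
  have h1 := tor_dom hp.out (extq (p := p) (Kf (comp H E).fixingSubgroup)) ψ (fun x hx hx1 => extq_inj _ hd x hx hx1) hψ
  rw [hrk H]
  refine (show rk p (Kf (comp H E).fixingSubgroup) ≤ _ from h1).trans ?_
  rw [tor_pi, Fintype.prod_prod_type, ← Finset.prod_pow]
  refine Finset.prod_le_prod' fun i _ => ?_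
  change ∏ _y : (F ≃ₐ[ℚ] F), rk p (Kf (comp (D i) E).fixingSubgroup) ≤ _
  rw [Finset.prod_const, Finset.card_univ, ← Nat.card_eq_fintype_card, hrk (D i)]

end

theorem rk_dom_cx {p : ℕ} [hp : Fact p.Prime] (F E : IntermediateField ℚ ℂ) [NumberField F]
    [NumberField ↥(F ⊔ E)] [FiniteDimensional ℚ E] [IsGalois ℚ E] (n : ℕ) (hn : Module.finrank ℚ E = p ^ n)
    {ι : Type} [Fintype ι] (H : Subgroup (F ≃ₐ[ℚ] F)) (D : ι → Subgroup (F ≃ₐ[ℚ] F))
    [NumberField ↥(fx F H ⊔ E)] [∀ i, NumberField ↥(fx F (D i) ⊔ E)]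
    (hH : ¬ p ∣ Nat.card H) (hdom : TraceDominates p H D) :
    rk p ↥(fx F H ⊔ E) ≤ (∏ i, rk p ↥(fx F (D i) ⊔ E)) ^ Nat.card (F ≃ₐ[ℚ] F) := by
  obtain ⟨i1, E', i2, h1, h2, h3, h4⟩ := exists_setup' F E
  have h5 := rk_dom (p := p) E' H D h1 h3 (fun x => ⟨n, by rw [← hn]; exact h4 x⟩) hH hdom
  rw [rk_congr_set (h2 H)] at h5
  refine h5.trans (le_of_eq ?_)
  congr 1
  exact Finset.prod_congr rfl fun i _ => rk_congr_set (h2 (D i))

end Pool.Agent.H92.Mu
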