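import Pool.Agent.H92.Mu.Key
import Pool.Agent.X310.MuGrp

set_option autoImplicit false
set_option linter.unusedSectionVars false
set_option linter.style.haveILetI false

/-!
# Elements of order `p` whose norm annihilates a module
-/

namespace Pool.Agent.H92.Mu

open Pool.Agent.X310.Mu

section
variable {Γ V : Type} [Group Γ] [Finite Γ] [CommGroup V] (b : Γ →* MulAut V)

theorem nm_zpowers (σ : Γ) (v : V) :
    nm b (Subgroup.zpowers σ) v = ∏ i ∈ Finset.range (orderOf σ), b (σ ^ i) v := by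
  classical
  haveI : Fintype (Subgroup.zpowers σ) := Fintype.ofFinite _
  rw [nm_eq, Finset.prod_range]
  refine (Fintype.prod_equiv (finEquivZPowers (isOfFinOrder_of_finite σ)) _ _ fun i => ?_).symm
  rw [finEquivZPowers_apply]

theorem nm_invol {c : Γ} (hc : c * c = 1) (hc1 : c ≠ 1) (v : V) : nm b (Subgroup.zpowers c) v = v * b c v := by
  have h : orderOf c = 2 := orderOf_eq_prime (by rw [pow_two]; exact hc) hc1
  rw [nm_zpowers, h, Finset.prod_range_succ, Finset.prod_range_one, pow_zero, pow_one, map_one,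
    MulAut.one_apply]

theorem nm_hom (D : Subgroup Γ) (x y : V) : nm b D (x * y) = nm b D x * nm b D y := by
  classical
  haveI : Fintype D := Fintype.ofFinite D
  rw [nm_eq, nm_eq, nm_eq, ← Finset.prod_mul_distrib]
  exact Finset.prod_congr rfl fun σ _ => map_mul _ _ _

theorem nm_one (D : Subgroup Γ) : nm b D (1 : V) = 1 := by
  classical
  haveI : Fintype D := Fintype.ofFinite D
  rw [nm_eq]
  exact Finset.prod_eq_one fun σ _ => map_one _

theorem nm_prod (D : Subgroup Γ) {ι : Type} (s : Finset ι) (f : ι → V) :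
    nm b D (∏ i ∈ s, f i) = ∏ i ∈ s, nm b D (f i) := by
  classical
  induction s using Finset.induction_on with
  | empty => rw [Finset.prod_empty, Finset.prod_empty, nm_one]
  | insert a s ha ih => rw [Finset.prod_insert ha, Finset.prod_insert ha, nm_hom, ih]

/-- Elements of `Γ` whose power of exponent prime to `p` fixes ... -/
theorem fix_of_pow {p : ℕ} (hp : p.Prime) {v : V} (hv : v ^ p = 1) {n : ℕ} (hn : ¬ p ∣ n) (g : Γ)
    (h : b g (v ^ n) = v ^ n) : b g v = v := by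
  have h1 : (b g v * v⁻¹) ^ p = 1 := by
    rw [mul_pow, ← map_pow, inv_pow, hv, map_one, inv_one, mul_one]
  have h2 : (b g v * v⁻¹) ^ n = 1 := by
    rw [mul_pow, ← map_pow, inv_pow, h, mul_inv_cancel]
  exact mul_inv_eq_one.1 (eq_one_of_cop hp hn h1 h2)

variable {b}

/-- The commutators of `σ` with the elements of a commutative subgroup normalised by `σ`. -/
def comQ (σ : Γ) (Q : Subgroup Γ) (hQ : ∀ a ∈ Q, ∀ b ∈ Q, a * b = b * a) (hσ : ∀ q ∈ Q, σ * q * σ⁻¹ ∈ Q) :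
    Subgroup Γ where
  carrier := {x | ∃ q ∈ Q, x = σ * q * σ⁻¹ * q⁻¹}
  one_mem' := ⟨1, Q.one_mem, by group⟩
  mul_mem' := by
    rintro _ _ ⟨q, hq, rfl⟩ ⟨r, hr, rfl⟩
    refine ⟨q * r, Q.mul_mem hq hr, ?_⟩
    have h1 := hQ _ (hσ r hr) _ (Q.inv_mem hq)
    have h2 : q⁻¹ * r⁻¹ = (q * r)⁻¹ := by
      rw [mul_inv_rev]
      exact hQ _ (Q.inv_mem hq) _ (Q.inv_mem hr)
    calc σ * q * σ⁻¹ * q⁻¹ * (σ * r * σ⁻¹ * r⁻¹) = σ * q * σ⁻¹ * (q⁻¹ * (σ * r * σ⁻¹)) * r⁻¹ := by group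
      _ = σ * q * σ⁻¹ * ((σ * r * σ⁻¹) * q⁻¹) * r⁻¹ := by rw [h1]
      _ = σ * (q * r) * σ⁻¹ * (q⁻¹ * r⁻¹) := by group
      _ = _ := by rw [h2]
  inv_mem' := by
    rintro _ ⟨q, hq, rfl⟩
    refine ⟨q⁻¹, Q.inv_mem hq, ?_⟩
    have h1 := hQ _ (hσ _ (Q.inv_mem hq)) _ hq
    calc (σ * q * σ⁻¹ * q⁻¹)⁻¹ = q * (σ * q⁻¹ * σ⁻¹) := by group
      _ = σ * q⁻¹ * σ⁻¹ * q := h1.symm
      _ = σ * q⁻¹ * σ⁻¹ * q⁻¹⁻¹ := by rw [inv_inv]

theorem comQ_le (σ : Γ) (Q : Subgroup Γ) (hQ : ∀ a ∈ Q, ∀ b ∈ Q, a * b = b * a)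
    (hσ : ∀ q ∈ Q, σ * q * σ⁻¹ ∈ Q) : comQ σ Q hQ hσ ≤ Q := by
  rintro _ ⟨q, hq, rfl⟩
  exact Q.mul_mem (hσ q hq) (Q.inv_mem hq)

theorem pow_conj_mem {σ : Γ} {Q : Subgroup Γ} (hσ : ∀ q ∈ Q, σ * q * σ⁻¹ ∈ Q) (i : ℕ) :
    ∀ q ∈ Q, σ ^ i * q * (σ ^ i)⁻¹ ∈ Q := by
  induction i with
  | zero => intro q hq; simpa using hq
  | succ i ih =>
    intro q hq
    have h1 := hσ _ (ih q hq)
    have h2 : σ ^ (i + 1) * q * (σ ^ (i + 1))⁻¹ = σ * (σ ^ i * q * (σ ^ i)⁻¹) * σ⁻¹ := by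
      rw [pow_succ']
      group
    rw [h2]
    exact h1

/-- In a commutative group the product of the conjugates of a commutator is trivial, so a commutator
which commutes with `σ` is trivial if its order is prime to the order of `σ`. -/
theorem comQ_fixed {p : ℕ} (hp : p.Prime) {σ : Γ} (ho : σ ^ p = 1) {Q : Subgroup Γ}
    (hQ : ∀ a ∈ Q, ∀ b ∈ Q, a * b = b * a) (hσ : ∀ q ∈ Q, σ * q * σ⁻¹ ∈ Q) (hc : ¬ p ∣ Nat.card Q)
    {r : Γ} (hr : r ∈ comQ σ Q hQ hσ) (hf : σ * r = r * σ) : r = 1 := by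
  obtain ⟨q, hq, rfl⟩ := hr
  set r := σ * q * σ⁻¹ * q⁻¹ with hrdef
  have hrQ : r ∈ Q := Q.mul_mem (hσ q hq) (Q.inv_mem hq)
  -- `σ ^ n q σ ^ {-n} = r ^ n q`
  have h1 : ∀ n : ℕ, σ ^ n * q * (σ ^ n)⁻¹ = r ^ n * q := by
    intro n
    induction n with
    | zero => simp
    | succ n ih =>
      have h2 : σ ^ (n + 1) * q * (σ ^ (n + 1))⁻¹ = σ * (σ ^ n * q * (σ ^ n)⁻¹) * σ⁻¹ := by
        rw [pow_succ']
        group
      have h3 : σ * r ^ n = r ^ n * σ := by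
        exact (Commute.pow_right (show Commute σ r from hf) n).eq
      have h4 : σ * q * σ⁻¹ = r * q := by rw [hrdef]; group
      rw [h2, ih]
      calc σ * (r ^ n * q) * σ⁻¹ = (σ * r ^ n) * q * σ⁻¹ := by group
        _ = r ^ n * (σ * q * σ⁻¹) := by rw [h3]; group
        _ = r ^ (n + 1) * q := by rw [h4, pow_succ]; group
  have h5 := h1 p
  rw [ho] at h5
  have h6 : r ^ p = 1 := by
    have : q = r ^ p * q := by simpa using h5
    exact (mul_eq_right.1 this.symm)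
  have h7 : r ^ Nat.card Q = 1 := by
    have h8 : (⟨r, hrQ⟩ : Q) ^ Nat.card Q = 1 := pow_card_eq_one'
    exact congrArg Subtype.val h8
  exact eq_one_of_cop hp hc h6 h7

/-- **If the norm of `⟨σ⟩`, `σ` of order `p`, annihilates `V`, then the commutators of `σ` with the elements
of a commutative subgroup of order prime to `p`, normalised by `σ`, act trivially on `V`.** -/
theorem comQ_triv {p : ℕ} (hp : p.Prime) (hV : ∀ v : V, v ^ p = 1) {σ : Γ} (ho : orderOf σ = p)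
    {Q : Subgroup Γ} (hQ : ∀ a ∈ Q, ∀ b ∈ Q, a * b = b * a) (hσ : ∀ q ∈ Q, σ * q * σ⁻¹ ∈ Q)
    (hc : ¬ p ∣ Nat.card Q) (hn : ∀ v : V, nm b (Subgroup.zpowers σ) v = 1)
    (r : Γ) (hr : r ∈ comQ σ Q hQ hσ) (v : V) : b r v = v := by
  classical
  set R := comQ σ Q hQ hσ with hR
  haveI : Fintype R := Fintype.ofFinite R
  have hRQ : R ≤ Q := comQ_le σ Q hQ hσ
  have hop : σ ^ p = 1 := by rw [← ho]; exact pow_orderOf_eq_one σ
  have hRσ : ∀ r ∈ R, σ * r * σ⁻¹ ∈ R := by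
    intro r hr
    have h1 : σ * r * σ⁻¹ = (σ * r * σ⁻¹ * r⁻¹) * r := by group
    have h : σ * r * σ⁻¹ * r⁻¹ ∈ R := ⟨r, hRQ hr, rfl⟩
    rw [h1]
    exact R.mul_mem h hr
  have hRi := pow_conj_mem hRσ
  -- the bijections of `R`
  have hbij : ∀ i, 0 < i → i < p → ∀ w : V, ∏ r : R, b (r.1 * σ ^ i * r.1⁻¹) w = nm b R (b (σ ^ i) w) := by
    intro i hi hip w
    rw [nm_eq]
    let f : R → R := fun r => r * ⟨σ ^ i * r.1⁻¹ * (σ ^ i)⁻¹, hRi i _ (R.inv_mem r.2)⟩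
    have hf : Function.Injective f := by
      intro r s hrs
      have h1 : r.1 * (σ ^ i * r.1⁻¹ * (σ ^ i)⁻¹) = s.1 * (σ ^ i * s.1⁻¹ * (σ ^ i)⁻¹) := congrArg Subtype.val hrs
      have h2 : s.1⁻¹ * r.1 ∈ R := R.mul_mem (R.inv_mem s.2) r.2
      have hcom : ∀ x ∈ R, ∀ y ∈ R, x * y = y * x := fun x hx y hy => hQ x (hRQ hx) y (hRQ hy)
      -- `s⁻¹ r` commutes with `σ ^ i`
      have h3 : s.1⁻¹ * r.1 * σ ^ i = σ ^ i * (s.1⁻¹ * r.1) := by
        have h4 : s.1⁻¹ * r.1 * (σ ^ i * r.1⁻¹ * (σ ^ i)⁻¹) = σ ^ i * s.1⁻¹ * (σ ^ i)⁻¹ := by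
          rw [mul_assoc, h1, inv_mul_cancel_left]
        have h5 : s.1⁻¹ * r.1 = σ ^ i * s.1⁻¹ * (σ ^ i)⁻¹ * (σ ^ i * r.1⁻¹ * (σ ^ i)⁻¹)⁻¹ := by
          rw [← h4, mul_inv_cancel_right]
        have h6 : s.1⁻¹ * r.1 = σ ^ i * (s.1⁻¹ * r.1) * (σ ^ i)⁻¹ := by
          calc s.1⁻¹ * r.1 = σ ^ i * s.1⁻¹ * (σ ^ i)⁻¹ * (σ ^ i * r.1⁻¹ * (σ ^ i)⁻¹)⁻¹ := h5
            _ = _ := by group
        calc s.1⁻¹ * r.1 * σ ^ i = (σ ^ i * (s.1⁻¹ * r.1) * (σ ^ i)⁻¹) * σ ^ i := by rw [← h6]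
          _ = _ := by group
      have h7 : σ * (s.1⁻¹ * r.1) = (s.1⁻¹ * r.1) * σ := by
        have hcop : Nat.Coprime i p := ((Nat.Prime.coprime_iff_not_dvd hp).2 (fun hd => by
          exact absurd (Nat.le_of_dvd hi hd) (not_le.2 hip))).symm
        obtain ⟨m, hm⟩ := exists_pow_eq_self_of_coprime (x := σ) (n := i) (by rw [ho]; exact hcop)
        have h8 : Commute (s.1⁻¹ * r.1) (σ ^ i) := h3
        have h9 : Commute (s.1⁻¹ * r.1) ((σ ^ i) ^ m) := h8.pow_right m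
        rw [hm] at h9
        exact h9.eq.symm
      have h10 := comQ_fixed hp hop hQ hσ hc h2 h7
      exact (Subtype.ext (inv_mul_eq_one.1 h10)).symm
    have hfb : Function.Bijective f := Finite.injective_iff_bijective.1 hf
    refine Fintype.prod_equiv (Equiv.ofBijective f hfb) _ _ fun r => ?_
    change b (r.1 * σ ^ i * r.1⁻¹) w = b (r.1 * (σ ^ i * r.1⁻¹ * (σ ^ i)⁻¹)) (b (σ ^ i) w)
    rw [← MulAut.mul_apply, ← map_mul]
    congr 2
    group
  have hnm : ∀ w : V, ∏ i ∈ Finset.range p, b (σ ^ i) w = 1 := by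
    intro w
    have := hn w
    rwa [nm_zpowers, ho] at this
  obtain ⟨p', hp'⟩ : ∃ p', p = p' + 1 := ⟨p - 1, by have := hp.pos; omega⟩
  have key : ∀ w : V, w ^ Nat.card R = nm b R w := by
    intro w
    have e1 : ∏ i ∈ Finset.range p, ∏ r : R, b (r.1 * σ ^ i * r.1⁻¹) w = 1 := by
      rw [Finset.prod_comm]
      refine Finset.prod_eq_one fun r _ => ?_
      have : ∀ i, b (r.1 * σ ^ i * r.1⁻¹) w = b r.1 (b (σ ^ i) (b r.1⁻¹ w)) := by
        intro i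
        rw [← MulAut.mul_apply, ← MulAut.mul_apply, ← map_mul, ← map_mul, mul_assoc]
      simp only [this]
      rw [← map_prod, hnm, map_one]
    have e2 : ∏ i ∈ Finset.range p, nm b R (b (σ ^ i) w) = 1 := by
      rw [← nm_prod, hnm, nm_one]
    have hp1 : Finset.range p = Finset.range (p' + 1) := by rw [hp']
    rw [hp1, Finset.prod_range_succ'] at e1 e2
    have e3 : ∏ i ∈ Finset.range p', ∏ r : R, b (r.1 * σ ^ (i + 1) * r.1⁻¹) w =
        ∏ i ∈ Finset.range p', nm b R (b (σ ^ (i + 1)) w) :=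
      Finset.prod_congr rfl fun i hi => hbij (i + 1) (Nat.succ_pos i) (by
        have := Finset.mem_range.1 hi
        omega) w
    rw [e3] at e1
    have e4 : ∏ r : R, b (r.1 * σ ^ 0 * r.1⁻¹) w = w ^ Nat.card R := by
      have : ∀ r : R, b (r.1 * σ ^ 0 * r.1⁻¹) w = w := by
        intro r
        rw [pow_zero, mul_one, mul_inv_cancel, map_one, MulAut.one_apply]
      rw [Finset.prod_congr rfl fun r _ => this r, Finset.prod_const, Finset.card_univ,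
        Nat.card_eq_fintype_card]
    have e5 : nm b R (b (σ ^ 0) w) = nm b R w := by rw [pow_zero, map_one, MulAut.one_apply]
    rw [e4] at e1
    rw [e5] at e2
    exact mul_left_cancel (e1.trans e2.symm)
  have hcR : ¬ p ∣ Nat.card R := fun h => hc (h.trans (Subgroup.card_dvd_of_le hRQ))
  refine fix_of_pow b hp (hV v) hcR r ?_
  rw [key v]
  exact nm_fix b R v r hr

end

end Pool.Agent.H92.Mu
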