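import Pool.Agent.X310.MuKey

set_option autoImplicit false
set_option linter.unusedSectionVars false
set_option linter.style.haveILetI false

/-!
# Irreducible modules and the product of the conjugates of a vector under a subgroup of arbitrary order
-/

namespace Pool.Agent.H92.Mu

open Pool.Agent.X310.Mu

/-- `V`, written multiplicatively, is annihilated by `p`, and there are no stable subgroups apart from `1` and `V`:
it is an irreducible `𝔽_p[Γ]`-module or trivial. -/
structure IsIrr (p : ℕ) {Γ V : Type} [Group Γ] [CommGroup V] (b : Γ →* MulAut V) : Prop where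
  pow : ∀ v : V, v ^ p = 1
  irr : ∀ U : Subgroup V, (∀ g, ∀ u ∈ U, b g u ∈ U) → U = ⊥ ∨ U = ⊤

/-- Some `v ≠ 1` is fixed by `H`. -/
def HasFixed {Γ V : Type} [Group Γ] [CommGroup V] (b : Γ →* MulAut V) (H : Subgroup Γ) : Prop :=
  ∃ v : V, v ≠ 1 ∧ ∀ h ∈ H, b h v = v

/-- For some `v` the product of the `d v`, `d ∈ D`, is not `1`. -/
def NormNe {Γ V : Type} [Group Γ] [Finite Γ] [CommGroup V] (b : Γ →* MulAut V) (D : Subgroup Γ) : Prop :=
  ∃ v : V, nm b D v ≠ 1

/-- Every irreducible (finite) `𝔽_p[Γ]`-module `V`, written multiplicatively, with a nontrivial vector fixed by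
`H` contains for some `i` a vector `v` such that the product of the vectors `d v`, `d ∈ D i`, is not trivial. -/
def TraceDominates (p : ℕ) {Γ ι : Type} [Group Γ] [Finite Γ] (H : Subgroup Γ) (D : ι → Subgroup Γ) : Prop :=
  ∀ (V : Type) [CommGroup V] [Finite V] (b : Γ →* MulAut V), IsIrr p b → HasFixed b H → ∃ i, NormNe b (D i)

/-- Left cosets. -/
noncomputable def cosetEquiv {D : Type} [Group D] (S : Subgroup D) : D ≃ (D ⧸ S) × S where
  toFun σ := ((σ : D ⧸ S), ⟨(Quotient.out (σ : D ⧸ S))⁻¹ * σ, by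
    rw [← QuotientGroup.eq]
    exact QuotientGroup.out_eq' (σ : D ⧸ S)⟩)
  invFun q := Quotient.out q.1 * q.2.1
  left_inv σ := by simp
  right_inv q := by
    obtain ⟨q, d⟩ := q
    have h1 : (((Quotient.out q * d.1 : D)) : D ⧸ S) = q := by
      rw [QuotientGroup.mk_mul_of_mem _ d.2]
      exact QuotientGroup.out_eq' q
    ext
    · exact h1
    · simp [h1]

/-- The norm of a subgroup is a product of conjugates of the norm of a smaller subgroup. -/
theorem nm_of_le {Γ V : Type} [Group Γ] [Finite Γ] [CommGroup V] (b : Γ →* MulAut V) {D' D : Subgroup Γ}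
    (h : D' ≤ D) (v : V) (hv : nm b D' v = 1) : nm b D v = 1 := by
  classical
  haveI : Fintype D := Fintype.ofFinite D
  haveI : Fintype D' := Fintype.ofFinite D'
  haveI : Fintype (D'.subgroupOf D) := Fintype.ofFinite _
  haveI : Fintype (D ⧸ D'.subgroupOf D) := Fintype.ofFinite _
  rw [nm_eq] at hv ⊢
  have h1 : ∏ σ : D, b σ.1 v =
      ∏ q : (D ⧸ D'.subgroupOf D) × (D'.subgroupOf D), b ((Quotient.out q.1 : D) : Γ) (b (q.2.1 : Γ) v) := by
    refine (Fintype.prod_equiv (cosetEquiv (D'.subgroupOf D)).symm _ _ fun q => ?_).symm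
    rw [← MulAut.mul_apply, ← map_mul]
    rfl
  rw [h1, Fintype.prod_prod_type]
  refine Finset.prod_eq_one fun q _ => ?_
  have h3 : ∏ d : D'.subgroupOf D, b ((Quotient.out q : D) : Γ) (b (d.1 : Γ) v) =
      b ((Quotient.out q : D) : Γ) (∏ d : D'.subgroupOf D, b (d.1 : Γ) v) := (map_prod _ _ _).symm
  refine h3.trans ?_
  have h4 : ∏ d : D'.subgroupOf D, b (d.1 : Γ) v = ∏ σ : D', b σ.1 v :=
    Fintype.prod_equiv (Subgroup.subgroupOfEquivOfLe h).toEquiv _ _ fun σ => rfl
  rw [h4, hv, map_one]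

/-- After `key_false` of the starting file `Pool.Agent.X310.MuKey`; the subgroups `D i` are arbitrary. -/
theorem key_false {p : ℕ} (hp : p.Prime) {G Γ P M : Type} [Group G] [Finite G] [Group Γ] [Finite Γ] [Group P]
    [CommGroup M] [Finite M] (a : G →* MulAut M) (π : G →* Γ) (ρ : G →* P) (hπ : Function.Surjective π)
    (hinj : ∀ g, π g = 1 → ρ g = 1 → g = 1) (hP : ∀ x : P, ∃ k, x ^ p ^ k = 1)
    {ι : Type} (H : Subgroup Γ) (D : ι → Subgroup Γ) (hH : ¬ p ∣ Nat.card H)
    (hdom : TraceDominates p H D)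
    (W : Subgroup M) (hW : ∀ g, ∀ w ∈ W, a g w ∈ W)
    (hN : ∀ i x, nm a (hat π ρ (D i)) x ∈ W) (q : M) (hq : q ∉ W) (hqp : q ^ p ∈ W)
    (hqf : ∀ g ∈ hat π ρ H, a g q = q) : False := by
  classical
  haveI : Fact p.Prime := ⟨hp⟩
  -- a maximal stable subgroup without `q`
  obtain ⟨A, ⟨hWA, hA, hqA⟩, hmax⟩ : ∃ A, Maximal (· ∈ {A : Subgroup M | W ≤ A ∧ (∀ g, ∀ w ∈ A, a g w ∈ A) ∧
      q ∉ A}) A := by
    refine Set.Finite.exists_maximal (Set.toFinite _) ⟨W, le_rfl, hW, hq⟩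
  let b := qact a A hA
  let q0 : M ⧸ A := QuotientGroup.mk' A q
  have hbA : ∀ g, ∀ x : M, b g (QuotientGroup.mk' A x) = QuotientGroup.mk' A (a g x) := fun g x => rfl
  have hq01 : q0 ≠ 1 := by
    intro h
    exact hqA ((QuotientGroup.eq_one_iff q).1 h)
  have hq0p : q0 ^ p = 1 := by
    change (QuotientGroup.mk' A q) ^ p = 1
    rw [← map_pow]
    exact (QuotientGroup.eq_one_iff _).2 (hWA hqp)
  have hbb : ∀ g h (u : M ⧸ A), b g (b h u) = b (g * h) u := fun g h u => by
    rw [map_mul, MulAut.mul_apply]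
  -- claim 1
  have c1 : ∀ U : Subgroup (M ⧸ A), (∀ g, ∀ u ∈ U, b g u ∈ U) → U ≠ ⊥ → q0 ∈ U := by
    intro U hU hUb
    by_contra hqU
    have h1 : A ≤ U.comap (QuotientGroup.mk' A) := by
      intro x hx
      have : QuotientGroup.mk' A x = 1 := (QuotientGroup.eq_one_iff x).2 hx
      change QuotientGroup.mk' A x ∈ U
      rw [this]
      exact one_mem _
    have h2 := hmax (y := U.comap (QuotientGroup.mk' A)) ⟨hWA.trans h1, fun g w hw => hU g _ hw, hqU⟩ h1
    apply hUb
    rw [eq_bot_iff]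
    intro u hu
    obtain ⟨x, rfl⟩ := QuotientGroup.mk'_surjective A u
    exact (QuotientGroup.eq_one_iff x).2 (h2 hu)
  -- claim 2
  let T : Subgroup (M ⧸ A) :=
    { carrier := {u | u ^ p = 1 ∧ ∀ h, π h = 1 → b h u = u}
      mul_mem' := by
        rintro u v ⟨hu, hu'⟩ ⟨hv, hv'⟩
        exact ⟨by rw [mul_pow, hu, hv, one_mul], fun h hh => by rw [map_mul, hu' h hh, hv' h hh]⟩
      one_mem' := ⟨one_pow _, fun h _ => map_one _⟩
      inv_mem' := by
        rintro u ⟨hu, hu'⟩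
        exact ⟨by rw [inv_pow, hu, inv_one], fun h hh => by rw [map_inv, hu' h hh]⟩ }
  have hTst : ∀ g, ∀ u ∈ T, b g u ∈ T := by
    rintro g u ⟨hu, hu'⟩
    refine ⟨by rw [← map_pow, hu, map_one], fun h hh => ?_⟩
    have h1 : h * g = g * (g⁻¹ * h * g) := by group
    rw [hbb, h1, ← hbb, hu']
    simp [hh]
  have hT : T ≠ ⊥ := by
    let R : Subgroup (M ⧸ A) := (powMonoidHom p : M ⧸ A →* M ⧸ A).ker
    have hR : ∀ g, ∀ u ∈ R, b g u ∈ R := by
      intro g u hu
      rw [MonoidHom.mem_ker] at hu ⊢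
      change u ^ p = 1 at hu
      change (b g u) ^ p = 1
      rw [← map_pow, hu, map_one]
    letI : MulAction π.ker R :=
      { smul := fun h u => ⟨b h.1 u.1, hR h.1 u.1 u.2⟩
        one_smul := fun u => Subtype.ext (by
          change b 1 u.1 = u.1
          rw [map_one]; rfl)
        mul_smul := fun g h u => Subtype.ext (by
          change b (g.1 * h.1) u.1 = b g.1 (b h.1 u.1)
          rw [hbb]) }
    have hpg : IsPGroup p π.ker := by
      intro g
      obtain ⟨k, hk⟩ := hP (ρ g.1)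
      refine ⟨k, Subtype.ext ?_⟩
      apply hinj
      · change π (g.1 ^ p ^ k) = 1
        rw [map_pow, (g.2 : π g.1 = 1), one_pow]
      · change ρ (g.1 ^ p ^ k) = 1
        rw [map_pow, hk]
    have hdvd : p ∣ Nat.card R := by
      have h1 : orderOf (⟨q0, hq0p⟩ : R) = p := by
        apply orderOf_eq_prime
        · exact Subtype.ext hq0p
        · intro h
          exact hq01 (congrArg Subtype.val h)
      rw [← h1]
      exact orderOf_dvd_natCard _
    obtain ⟨u, hu, hu1⟩ := hpg.exists_fixed_point_of_prime_dvd_card_of_fixed_point R hdvd (a := 1) (by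
      intro g
      apply Subtype.ext
      change b g.1 1 = 1
      exact map_one _)
    intro hb
    apply hu1
    apply Subtype.ext
    have h2 : u.1 ∈ T := ⟨u.2, fun h hh => congrArg Subtype.val (hu ⟨h, hh⟩)⟩
    rw [hb] at h2
    exact ((Subgroup.mem_bot).1 h2).symm
  have hq0T : q0 ∈ T := c1 T hTst hT
  -- the simple module
  let V : Subgroup (M ⧸ A) := sInf {U | (∀ g, ∀ u ∈ U, b g u ∈ U) ∧ q0 ∈ U}
  have hVq : q0 ∈ V := by
    rw [Subgroup.mem_sInf]
    exact fun U hU => hU.2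
  have hVle : ∀ U : Subgroup (M ⧸ A), (∀ g, ∀ u ∈ U, b g u ∈ U) → q0 ∈ U → V ≤ U := fun U h1 h2 =>
    sInf_le ⟨h1, h2⟩
  have hVst : ∀ g, ∀ u ∈ V, b g u ∈ V := by
    intro g u hu
    rw [Subgroup.mem_sInf] at hu ⊢
    exact fun U hU => hU.1 g u (hu U hU)
  have hVT : V ≤ T := hVle T hTst hq0T
  choose s hs using hπ
  have hdep : ∀ g g' : G, π g = π g' → ∀ v ∈ V, b g v = b g' v := by
    intro g g' h v hv
    have h1 : g = g' * (g'⁻¹ * g) := by group
    rw [h1, ← hbb, (hVT hv).2 (g'⁻¹ * g) (by rw [map_mul, map_inv, h, inv_mul_cancel])]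
  let c : Γ →* MulAut V :=
    { toFun := fun γ =>
        { toFun := fun v => ⟨b (s γ) v.1, hVst _ _ v.2⟩
          invFun := fun v => ⟨b (s γ)⁻¹ v.1, hVst _ _ v.2⟩
          left_inv := fun v => Subtype.ext (by
            change b (s γ)⁻¹ (b (s γ) v.1) = v.1
            rw [hbb, inv_mul_cancel, map_one]; rfl)
          right_inv := fun v => Subtype.ext (by
            change b (s γ) (b (s γ)⁻¹ v.1) = v.1
            rw [hbb, mul_inv_cancel, map_one]; rfl)
          map_mul' := fun v w => Subtype.ext (map_mul (b (s γ)) v.1 w.1) }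
      map_one' := by
        ext v
        change b (s 1) v.1 = v.1
        rw [hdep (s 1) 1 (by rw [hs, map_one]) v.1 v.2, map_one]
        rfl
      map_mul' := fun γ δ => by
        ext v
        change b (s (γ * δ)) v.1 = b (s γ) (b (s δ) v.1)
        rw [hbb]
        exact hdep _ _ (by rw [hs, map_mul, hs, hs]) v.1 v.2 }
  have hc : ∀ (g : G) (v : V), ((c (π g) v : V) : M ⧸ A) = b g v.1 := fun g v =>
    hdep _ _ (hs (π g)) v.1 v.2
  obtain ⟨i, v, hv1⟩ := hdom V c ⟨fun v => Subtype.ext (hVT v.2).1, (by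
    intro U hU
    have h1 : ∀ g, ∀ u ∈ U.map V.subtype, b g u ∈ U.map V.subtype := by
      rintro g _ ⟨u, hu, rfl⟩
      exact ⟨c (π g) u, hU _ u hu, hc g u⟩
    by_cases hb : U.map V.subtype = ⊥
    · left
      rwa [Subgroup.map_eq_bot_iff_of_injective _ V.subtype_injective] at hb
    · right
      have h2 := hVle _ h1 (c1 _ h1 hb)
      rw [eq_top_iff]
      intro v _
      obtain ⟨u, hu, huv⟩ := h2 v.2
      have : u = v := Subtype.ext huv
      rwa [← this])⟩ ⟨⟨q0, hVq⟩, fun h => hq01 (congrArg Subtype.val h), fun h hh => by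
      obtain ⟨g, hg, rfl⟩ := exists_hat π ρ hp (fun γ => ⟨s γ, hs γ⟩) hP H hH h hh
      apply Subtype.ext
      rw [hc]
      change QuotientGroup.mk' A (a g q) = QuotientGroup.mk' A q
      rw [hqf g hg]⟩
  -- the norm
  obtain ⟨x, hx⟩ := QuotientGroup.mk'_surjective A v.1
  haveI : Fintype (hat π ρ (D i)) := Fintype.ofFinite _
  have h1 : QuotientGroup.mk' A (nm a (hat π ρ (D i)) x) = 1 := (QuotientGroup.eq_one_iff _).2 (hWA (hN i x))
  rw [nm_eq, map_prod] at h1
  apply hv1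
  have hi : Function.Injective (π.comp (hat π ρ (D i)).subtype) := by
    rw [injective_iff_map_eq_one]
    intro g hg
    exact Subtype.ext (hinj g.1 hg g.2.2)
  refine nm_of_le c (D' := (π.comp (hat π ρ (D i)).subtype).range) ?_ v ?_
  · rintro _ ⟨g, rfl⟩
    exact g.2.1
  · apply Subtype.ext
    haveI : Fintype (π.comp (hat π ρ (D i)).subtype).range := Fintype.ofFinite _
    rw [nm_eq]
    have h2 : (((∏ σ : (π.comp (hat π ρ (D i)).subtype).range, c σ.1 v : V)) : M ⧸ A) =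
        ∏ σ : (π.comp (hat π ρ (D i)).subtype).range, ((c σ.1 v : V) : M ⧸ A) := map_prod V.subtype _ _
    refine h2.trans (Eq.trans ?_ h1)
    refine (Fintype.prod_equiv (MonoidHom.ofInjective hi).toEquiv _ _ fun σ => ?_).symm
    change QuotientGroup.mk' A (a σ.1 x) = ((c (π σ.1) v : V) : M ⧸ A)
    rw [hc, ← hbA, hx]

theorem key {p : ℕ} (hp : p.Prime) {G Γ P M : Type} [Group G] [Finite G] [Group Γ] [Finite Γ] [Group P]
    [CommGroup M] [Finite M] (a : G →* MulAut M) (π : G →* Γ) (ρ : G →* P) (hπ : Function.Surjective π)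
    (hinj : ∀ g, π g = 1 → ρ g = 1 → g = 1) (hP : ∀ x : P, ∃ k, x ^ p ^ k = 1)
    {ι : Type} (H : Subgroup Γ) (D : ι → Subgroup Γ) (hH : ¬ p ∣ Nat.card H)
    (hdom : TraceDominates p H D)
    (W : Subgroup M) (hW : ∀ g, ∀ w ∈ W, a g w ∈ W)
    (hN : ∀ i x, nm a (hat π ρ (D i)) x ∈ W) (y : M) :
    ∃ n, ¬ p ∣ n ∧ (nm a (hat π ρ H) y) ^ n ∈ W := by
  classical
  haveI : Fact p.Prime := ⟨hp⟩
  set q0 := nm a (hat π ρ H) y with hq0
  have hN0 : orderOf (QuotientGroup.mk' W q0) ≠ 0 := (orderOf_pos _).ne'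
  obtain ⟨e, n, hn, hen⟩ := Nat.exists_eq_pow_mul_and_not_dvd hN0 p hp.ne_one
  have hmem : ∀ k, q0 ^ k ∈ W ↔ orderOf (QuotientGroup.mk' W q0) ∣ k := by
    intro k
    rw [orderOf_dvd_iff_pow_eq_one, ← map_pow]
    exact (QuotientGroup.eq_one_iff _).symm
  rcases Nat.eq_zero_or_pos e with he | he
  · refine ⟨n, hn, (hmem n).2 ?_⟩
    rw [hen, he, pow_zero, one_mul]
  · exfalso
    obtain ⟨e', rfl⟩ : ∃ e', e = e' + 1 := ⟨e - 1, by omega⟩
    have hnpos : 0 < n := Nat.pos_of_ne_zero (by rintro rfl; exact hn (dvd_zero p))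
    refine key_false hp a π ρ hπ hinj hP H D hH hdom W hW hN (q0 ^ (p ^ e' * n)) ?_ ?_ ?_
    · rw [hmem, hen]
      intro h
      have h1 := Nat.le_of_dvd (Nat.mul_pos (pow_pos hp.pos e') hnpos) h
      rw [pow_succ] at h1
      have h2 : 0 < p ^ e' * n := Nat.mul_pos (pow_pos hp.pos e') hnpos
      have h3 := hp.two_le
      nlinarith
    · rw [← pow_mul, hmem, hen, pow_succ]
      exact ⟨1, by ring⟩
    · intro g hg
      rw [map_pow, hq0, nm_fix a _ y g hg]

end Pool.Agent.H92.Mu
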