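import Pool.Agent.H92.Mu.Fld
import Pool.Agent.H92.Mu.Grp
import Pool.Agent.X27.Cln.Red

set_option autoImplicit false
set_option linter.unusedSectionVars false
set_option linter.style.haveILetI false

/-!
# Peaks of finite groups
-/

namespace Pool.Agent.H92.Mu

open Pool.Agent.X310.Mu
open Pool.Agent.X27.Cln (part_relation prime_part prime_part_card primeSubs isPart_map)

/-- Some irreducible (finite) `𝔽_p[Γ]`-module `V` contains a vector with a nontrivial norm under `H`, and all norms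
under subgroups with more elements than `H` are trivial. -/
def Peak (p : ℕ) {Γ : Type} [Group Γ] [Finite Γ] (H : Subgroup Γ) : Prop :=
  ∃ (V : Type) (_ : CommGroup V) (_ : Finite V) (b : Γ →* MulAut V), IsIrr p b ∧ NormNe b H ∧
    ∀ D : Subgroup Γ, Nat.card H < Nat.card D → ¬ NormNe b D

section group
variable {Γ : Type} [Group Γ] [Finite Γ]

theorem nm_bot {V : Type} [CommGroup V] (b : Γ →* MulAut V) (v : V) : nm b ⊥ v = v := by
  rw [nm_of_fix b ⊥ v (fun g hg => by rw [Subgroup.mem_bot.1 hg, map_one, MulAut.one_apply]), Subgroup.card_bot,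
    pow_one]

/-- A vector fixed by a subgroup of order prime to `p` has a nontrivial norm. -/
theorem nm_ne {p : ℕ} (hp : p.Prime) {V : Type} [CommGroup V] (b : Γ →* MulAut V) (hV : ∀ v : V, v ^ p = 1)
    {H : Subgroup Γ} (hH : ¬ p ∣ Nat.card H) {v : V} (hv : v ≠ 1) (hf : ∀ h ∈ H, b h v = v) : nm b H v ≠ 1 := by
  intro h
  rw [nm_of_fix b H v hf] at h
  exact hv (eq_one_of_cop hp hH (hV v) h)

theorem not_peak {p : ℕ} (hp : p.Prime) {H : Subgroup Γ} (hH : ¬ p ∣ Nat.card H) (h : ¬ Peak p H) :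
    TraceDominates p H (fun D : {D : Subgroup Γ // Nat.card H < Nat.card D} => D.1) := by
  intro V _ _ b hV ⟨v, hv, hfix⟩
  by_contra hno
  apply h
  exact ⟨V, inferInstance, inferInstance, b, hV, ⟨v, nm_ne hp b hV.pow hH hv hfix⟩, fun D hlt hv1 =>
    hno ⟨⟨D, hlt⟩, hv1⟩⟩

/-- The peaks dominate each subgroup. -/
theorem peaks_dominate {p : ℕ} :
    TraceDominates p (⊥ : Subgroup Γ) (fun D : {D : Subgroup Γ // Peak p D} => D.1) := by
  classical
  intro V _ _ b hV ⟨v, hv, _⟩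
  let S : Set (Subgroup Γ) := {D | NormNe b D}
  have hS : S.Finite := Set.toFinite S
  have hne : S.Nonempty := ⟨⊥, v, by rw [nm_bot]; exact hv⟩
  obtain ⟨H, hH, hmax⟩ := Set.exists_max_image S (fun D => Nat.card D) hS hne
  exact ⟨⟨H, V, inferInstance, inferInstance, b, hV, hH, fun D hlt hv1 => absurd (hmax D hv1) (not_le.2 hlt)⟩, hH⟩

/-- Trace domination by an involution and a subgroup of odd order of its normal closure. -/
theorem dom_two {c : Γ} (hc : c * c = 1) (hc1 : c ≠ 1) {D : Subgroup Γ} (hD : D ≤ Subgroup.normalClosure {c})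
    (ho : ¬ 2 ∣ Nat.card D) (H : Subgroup Γ) :
    TraceDominates 2 H (fun i : Bool => if i then Subgroup.zpowers c else D) := by
  intro V _ _ b ⟨hV, hirr⟩ ⟨v, hv, _⟩
  by_cases h : ∀ w : V, nm b (Subgroup.zpowers c) w = 1
  · refine ⟨false, v, ?_⟩
    have h1 : ∀ w : V, b c w = w := by
      intro w
      have h2 := h w
      rw [nm_invol b hc hc1] at h2
      have h3 : w * w = 1 := by rw [← pow_two]; exact hV w
      exact mul_left_cancel (h2.trans h3.symm)
    have h2 : Subgroup.normalClosure {c} ≤ b.ker := by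
      apply Subgroup.normalClosure_le_normal
      intro x hx
      rw [Set.mem_singleton_iff] at hx
      rw [hx]
      change b c = 1
      ext w
      exact h1 w
    change nm b D v ≠ 1
    refine nm_ne Nat.prime_two b hV ho hv fun d hd => ?_
    have h3 : b d = 1 := h2 (hD hd)
    rw [h3, MulAut.one_apply]
  · push Not at h
    obtain ⟨w, hw⟩ := h
    exact ⟨true, w, hw⟩

/-- Trace domination by an element `σ` of order `p` and the commutators of `σ` with a commutative subgroup. -/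
theorem dom_comQ {p : ℕ} (hp : p.Prime) {σ : Γ} (ho : orderOf σ = p) {Q : Subgroup Γ}
    (hQ : ∀ a ∈ Q, ∀ b ∈ Q, a * b = b * a) (hσ : ∀ q ∈ Q, σ * q * σ⁻¹ ∈ Q) (hc : ¬ p ∣ Nat.card Q)
    (H : Subgroup Γ) :
    TraceDominates p H (fun i : Bool => if i then Subgroup.zpowers σ else comQ σ Q hQ hσ) := by
  intro V _ _ b ⟨hV, hirr⟩ ⟨v, hv, _⟩
  by_cases h : ∀ w : V, nm b (Subgroup.zpowers σ) w = 1
  · refine ⟨false, v, ?_⟩
    change nm b (comQ σ Q hQ hσ) v ≠ 1
    refine nm_ne hp b hV (fun h1 => hc (h1.trans (Subgroup.card_dvd_of_le (comQ_le σ Q hQ hσ)))) hv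
      fun d hd => comQ_triv hp hV ho hQ hσ hc h d hd v
  · push Not at h
    obtain ⟨w, hw⟩ := h
    exact ⟨true, w, hw⟩

/-! ### Modules on which the norms of all nontrivial subgroups are trivial -/

variable {V : Type} [CommGroup V] (b : Γ →* MulAut V) {p : ℕ}

theorem free_of_nm (hp : p.Prime) (hV : ∀ v : V, v ^ p = 1)
    (hnm : ∀ D : Subgroup Γ, D ≠ ⊥ → ∀ v : V, nm b D v = 1) (D : Subgroup Γ) (hD : ¬ p ∣ Nat.card D) (hD1 : D ≠ ⊥)
    (v : V) (hf : ∀ d ∈ D, b d v = v) : v = 1 := by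
  by_contra hv
  exact nm_ne hp b hV hD hv hf (hnm D hD1 v)

theorem zp_not_dvd {g : Γ} (h : ¬ p ∣ orderOf g) : ¬ p ∣ Nat.card (Subgroup.zpowers g) := by
  rwa [Nat.card_zpowers]

/-- The product over a subgroup is fixed by it. -/
theorem prod_fixed [Fintype Γ] (D : Subgroup Γ)
    [DecidablePred (· ∈ D)] (v : V) (d : Γ) (hd : d ∈ D) :
    b d (∏ g ∈ Finset.univ.filter (fun g => g ∈ D), b g v) =
      ∏ g ∈ Finset.univ.filter (fun g => g ∈ D), b g v := by
  rw [map_prod]
  refine Finset.prod_bij (fun g _ => d * g) ?_ ?_ ?_ ?_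
  · intro g hg
    simp only [Finset.mem_filter, Finset.mem_univ, true_and] at hg ⊢
    exact D.mul_mem hd hg
  · intro a _ c _ h
    exact mul_left_cancel h
  · intro g hg
    simp only [Finset.mem_filter, Finset.mem_univ, true_and] at hg
    refine ⟨d⁻¹ * g, ?_, by group⟩
    simp only [Finset.mem_filter, Finset.mem_univ, true_and]
    exact D.mul_mem (D.inv_mem hd) hg
  · intro g _
    rw [map_mul, MulAut.mul_apply]

/-- After the starting file `MP_4e64b4_nt.TightFields`. -/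
theorem cyclic_of_free (hp : p.Prime) (hV : ∀ v : V, v ^ p = 1) (hne : ∃ v : V, v ≠ 1)
    (hfree : ∀ D : Subgroup Γ, ¬ p ∣ Nat.card D → D ≠ ⊥ → ∀ v : V, (∀ d ∈ D, b d v = v) → v = 1)
    (Γ' : Subgroup Γ) {q r : ℕ} (hq : q.Prime) (hr : r.Prime) (hqp : q ≠ p) (hrp : r ≠ p)
    (hc : Nat.card Γ' = q * r) : IsCyclic Γ' := by
  classical
  by_contra hcyc
  have : Fintype Γ := Fintype.ofFinite _
  have : Fintype (Subgroup Γ') := Fintype.ofFinite _
  have hpt := isPart_map (prime_part (X := Γ') hq hr hc hcyc)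
  have hcard := prime_part_card (X := Γ') hq hr hc hcyc
  have hcop : ∀ d : ℕ, d ∣ q * r → ¬ p ∣ d := by
    intro d hd hpd
    rcases (Nat.Prime.dvd_mul hp).1 (hpd.trans hd) with h | h
    · exact hqp ((Nat.prime_dvd_prime_iff_eq hp hq).1 h).symm
    · exact hrp ((Nat.prime_dvd_prime_iff_eq hp hr).1 h).symm
  have htriv : ∀ D : Subgroup Γ, D ≤ Γ' → D ≠ ⊥ → ∀ v : V,
      ∏ g ∈ Finset.univ.filter (fun g => g ∈ D), b g v = 1 := by
    intro D hD hD0 v
    refine hfree D (hcop _ ?_) hD0 _ fun d hd => prod_fixed b D v d hd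
    rw [← hc]
    exact Subgroup.card_dvd_of_le hD
  obtain ⟨v, hv⟩ := hne
  apply hv
  have h1 := part_relation hpt (fun g => b g v)
  have hΓ0 : Γ' ≠ ⊥ := by
    intro h0
    rw [h0, Subgroup.card_bot] at hc
    have := hq.two_le
    have := hr.two_le
    nlinarith
  rw [htriv Γ' le_rfl hΓ0 v, one_mul, map_one, MulAut.one_apply, hcard] at h1
  rw [Finset.prod_eq_one, one_mul] at h1
  · have h2 : v ^ (max q r) = 1 := by
      rw [pow_succ] at h1
      exact (mul_eq_right.1 h1.symm)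
    refine eq_one_of_cop hp (hcop _ ?_) (hV v) h2
    rcases le_total q r with h5 | h5
    · rw [max_eq_right h5]; exact dvd_mul_left _ _
    · rw [max_eq_left h5]; exact dvd_mul_right _ _
  · rintro ⟨D, hD⟩ _
    simp only [primeSubs, Finset.mem_filter, Finset.mem_univ, true_and] at hD
    refine htriv _ ?_ ?_ v
    · rintro _ ⟨x, _, rfl⟩
      exact x.2
    · intro h0
      have h5 : D = ⊥ := (Subgroup.map_eq_bot_iff_of_injective D Γ'.subtype_injective).1 h0
      rw [h5, Subgroup.card_bot] at hD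
      exact Nat.not_prime_one hD

/-- After the starting file `MP_4e64b4_nt.TightFields`. -/
theorem ker_of_free (hp : p.Prime) (hne : ∃ v : V, v ≠ 1)
    (hfree : ∀ D : Subgroup Γ, ¬ p ∣ Nat.card D → D ≠ ⊥ → ∀ v : V, (∀ d ∈ D, b d v = v) → v = 1)
    (g : Γ) (hg : b g = 1) : ∃ k, g ^ p ^ k = 1 := by
  obtain ⟨k, m, hm, he⟩ := Nat.exists_eq_pow_mul_and_not_dvd (orderOf_pos g).ne' p hp.one_lt.ne'
  refine ⟨k, ?_⟩
  by_contra hne1
  obtain ⟨v, hv⟩ := hne
  apply hv
  refine hfree (Subgroup.zpowers (g ^ p ^ k)) (zp_not_dvd ?_) ?_ v ?_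
  · intro h1
    apply hm
    refine h1.trans (orderOf_dvd_of_pow_eq_one ?_)
    rw [← pow_mul, ← he, pow_orderOf_eq_one]
  · intro h0
    exact hne1 (Subgroup.zpowers_eq_bot.1 h0)
  · intro d hd
    refine fixed_zpowers b ?_ d hd
    rw [map_pow, hg, one_pow, MulAut.one_apply]

theorem inv_of_free (hp : p.Prime) (hp2 : p ≠ 2)
    (hfree : ∀ D : Subgroup Γ, ¬ p ∣ Nat.card D → D ≠ ⊥ → ∀ v : V, (∀ d ∈ D, b d v = v) → v = 1)
    {c : Γ} (hc : c * c = 1) (hc1 : c ≠ 1) (v : V) : b c v = v⁻¹ := by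
  refine inv_of_no_fixed b hc (fun w hw => ?_) v
  refine hfree (Subgroup.zpowers c) (card_zpowers_two hp hp2 hc) ?_ w fun d hd => fixed_zpowers b hw d hd
  intro h0
  exact hc1 (Subgroup.zpowers_eq_bot.1 h0)

/-- For `p = 2` the group generated by the involutions acts trivially. -/
theorem two_closure (hV : ∀ v : V, v ^ 2 = 1) (hnm : ∀ D : Subgroup Γ, D ≠ ⊥ → ∀ v : V, nm b D v = 1)
    (g : Γ) (hg : g ∈ Subgroup.closure {c : Γ | c * c = 1}) : b g = 1 := by
  have h1 : Subgroup.closure {c : Γ | c * c = 1} ≤ b.ker := by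
    rw [Subgroup.closure_le]
    intro c hc
    change b c = 1
    by_cases hc1 : c = 1
    · rw [hc1, map_one]
    ext v
    have h2 := hnm (Subgroup.zpowers c) (fun h0 => hc1 (Subgroup.zpowers_eq_bot.1 h0)) v
    rw [nm_invol b hc hc1] at h2
    have h3 : v * v = 1 := by rw [← pow_two]; exact hV v
    exact mul_left_cancel (h2.trans h3.symm)
  exact h1 hg

end group

end Pool.Agent.H92.Mu
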